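import Mathlib

/-!
Commuting H-polar decompositions of a nonzero H-indecomposable matrix:
the H-selfadjoint factor is unique up to sign.
-/

set_option autoImplicit false

open Matrix

namespace Pool.Agent.Results.MP_d7084b_al.CommutingPolarTwo

/-- The indefinite inner product `[x, y] = ⟨H x, y⟩ = (H x)^* y`. -/
noncomputable def ip {n : ℕ} (H : Matrix (Fin n) (Fin n) ℂ) (x y : Fin n → ℂ) : ℂ :=
  star (H *ᵥ x) ⬝ᵥ y

/-- The `H`-adjoint `M^[*] = H⁻¹ M^* H`. -/
noncomputable def adj {n : ℕ} (H M : Matrix (Fin n) (Fin n) ℂ) : Matrix (Fin n) (Fin n) ℂ :=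
  H⁻¹ * Mᴴ * H

/-- `X = U A` is an `H`-polar decomposition with commuting factors:
`U` is `H`-unitary, `A` is `H`-selfadjoint, `X = U A` and `U A = A U`. -/
def IsCommPolar {n : ℕ} (H X U A : Matrix (Fin n) (Fin n) ℂ) : Prop :=
  adj H U * U = 1 ∧ adj H A = A ∧ X = U * A ∧ U * A = A * U

/-- The restriction of the indefinite inner product to `W` is nondegenerate. -/
def IsNondeg {n : ℕ} (H : Matrix (Fin n) (Fin n) ℂ) (W : Submodule ℂ (Fin n → ℂ)) : Prop :=
  ∀ x ∈ W, (∀ y ∈ W, ip H x y = 0) → x = 0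

/-- `X` is `H`-decomposable: some proper nonzero `H`-nondegenerate subspace is invariant
under both `X` and its `H`-adjoint. -/
def IsDecomposable {n : ℕ} (H X : Matrix (Fin n) (Fin n) ℂ) : Prop :=
  ∃ W : Submodule ℂ (Fin n → ℂ), W ≠ ⊥ ∧ W ≠ ⊤ ∧ IsNondeg H W ∧
    (∀ x ∈ W, X *ᵥ x ∈ W) ∧ (∀ x ∈ W, adj H X *ᵥ x ∈ W)

/-- `CPD(X, H)`: the cardinality of the set of matrices `A` occurring as the `H`-selfadjoint
factor of an `H`-polar decomposition of `X` with commuting factors. -/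
noncomputable def CPD {n : ℕ} (H X : Matrix (Fin n) (Fin n) ℂ) : Cardinal :=
  Cardinal.mk {A : Matrix (Fin n) (Fin n) ℂ // ∃ U, IsCommPolar H X U A}

section Aux

variable {n : ℕ} {H : Matrix (Fin n) (Fin n) ℂ}

lemma adj_mul (hd : H.det ≠ 0) (M N : Matrix (Fin n) (Fin n) ℂ) :
    adj H (M * N) = adj H N * adj H M := by
  have h1 : H * H⁻¹ = 1 := Matrix.mul_nonsing_inv H (Ne.isUnit hd)
  unfold adj
  rw [conjTranspose_mul]
  calc H⁻¹ * (Nᴴ * Mᴴ) * H = H⁻¹ * Nᴴ * (H * H⁻¹) * Mᴴ * H := by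
        rw [h1]; simp [Matrix.mul_assoc]
    _ = _ := by simp [Matrix.mul_assoc]

lemma adj_one (hd : H.det ≠ 0) : adj H (1 : Matrix (Fin n) (Fin n) ℂ) = 1 := by
  have h1 : H⁻¹ * H = 1 := Matrix.nonsing_inv_mul H (Ne.isUnit hd)
  unfold adj
  simp [h1]

lemma adj_pow (hd : H.det ≠ 0) (M : Matrix (Fin n) (Fin n) ℂ) (k : ℕ) :
    adj H (M ^ k) = (adj H M) ^ k := by
  induction k with
  | zero => simpa using adj_one hd
  | succ k ih => rw [pow_succ, adj_mul hd, ih, pow_succ']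

lemma adj_sub (M N : Matrix (Fin n) (Fin n) ℂ) : adj H (M - N) = adj H M - adj H N := by
  unfold adj
  rw [conjTranspose_sub, Matrix.mul_sub, Matrix.sub_mul]

lemma adj_neg (M : Matrix (Fin n) (Fin n) ℂ) : adj H (-M) = - adj H M := by
  unfold adj
  rw [conjTranspose_neg, Matrix.mul_neg, Matrix.neg_mul]

lemma adj_smul (c : ℂ) (M : Matrix (Fin n) (Fin n) ℂ) :
    adj H (c • M) = (starRingEnd ℂ c) • adj H M := by
  unfold adj
  rw [conjTranspose_smul, Matrix.mul_smul, Matrix.smul_mul]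
  rfl

lemma ip_adj (hd : H.det ≠ 0) (M : Matrix (Fin n) (Fin n) ℂ)
    (x y : Fin n → ℂ) : ip H x (M *ᵥ y) = ip H (adj H M *ᵥ x) y := by
  have h1 : H * H⁻¹ = 1 := Matrix.mul_nonsing_inv H (Ne.isUnit hd)
  unfold ip adj
  have h2 : H *ᵥ ((H⁻¹ * Mᴴ * H) *ᵥ x) = Mᴴ *ᵥ (H *ᵥ x) := by
    rw [Matrix.mulVec_mulVec, Matrix.mulVec_mulVec, ← Matrix.mul_assoc, ← Matrix.mul_assoc, h1,
      Matrix.one_mul]
  rw [h2, Matrix.star_mulVec (Mᴴ), conjTranspose_conjTranspose, Matrix.dotProduct_mulVec]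

lemma ip_add (x y z : Fin n → ℂ) : ip H x (y + z) = ip H x y + ip H x z := by
  unfold ip
  rw [dotProduct_add]

lemma ip_zero_left (y : Fin n → ℂ) : ip H 0 y = 0 := by
  unfold ip
  simp

open scoped ComplexOrder in
lemma ip_nondeg (hd : H.det ≠ 0) (x : Fin n → ℂ) (h : ∀ y, ip H x y = 0) : x = 0 := by
  have h0 := h (H *ᵥ x)
  unfold ip at h0
  have h1 : H *ᵥ x = 0 := by
    have := (dotProduct_star_self_eq_zero (v := H *ᵥ x)).1 h0
    exact this
  exact Matrix.eq_zero_of_mulVec_eq_zero hd h1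

/-- The auxiliary matrix `(V - u)(conj u V - 1)`. -/
noncomputable def quad (u : ℂ) (V : Matrix (Fin n) (Fin n) ℂ) : Matrix (Fin n) (Fin n) ℂ :=
  (V - u • 1) * ((starRingEnd ℂ u) • V - 1)

lemma quad_intertwine (u : ℂ) {U V D : Matrix (Fin n) (Fin n) ℂ} (h : U * D = D * V) :
    quad u U * D = D * quad u V := by
  unfold quad
  have h1 : (U - u • 1) * D = D * (V - u • 1) := by
    rw [Matrix.sub_mul, Matrix.mul_sub, h]; simp
  have h2 : ((starRingEnd ℂ u) • U - 1) * D = D * ((starRingEnd ℂ u) • V - 1) := by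
    rw [Matrix.sub_mul, Matrix.mul_sub, Matrix.smul_mul, Matrix.mul_smul, h]; simp
  rw [Matrix.mul_assoc, h2, ← Matrix.mul_assoc, h1, Matrix.mul_assoc]

lemma pow_intertwine {U V D : Matrix (Fin n) (Fin n) ℂ} (h : U * D = D * V) (k : ℕ) :
    U ^ k * D = D * V ^ k := by
  induction k with
  | zero => simp
  | succ k ih => rw [pow_succ, Matrix.mul_assoc, h, ← Matrix.mul_assoc, ih, pow_succ,
      Matrix.mul_assoc]

lemma quad_mulVec (u μ : ℂ) {V : Matrix (Fin n) (Fin n) ℂ} {v : Fin n → ℂ}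
    (hv : V *ᵥ v = μ • v) :
    quad u V *ᵥ v = ((μ - u) * ((starRingEnd ℂ u) * μ - 1)) • v := by
  unfold quad
  rw [← Matrix.mulVec_mulVec]
  have h2 : ((starRingEnd ℂ u) • V - 1) *ᵥ v = ((starRingEnd ℂ u) * μ - 1) • v := by
    rw [Matrix.sub_mulVec, Matrix.smul_mulVec, hv, Matrix.one_mulVec, smul_smul, sub_smul,
      one_smul]
  rw [h2, Matrix.mulVec_smul, Matrix.sub_mulVec, hv, Matrix.smul_mulVec, Matrix.one_mulVec,
    ← sub_smul, smul_smul, mul_comm]

lemma pow_mulVec_eigen {T : Matrix (Fin n) (Fin n) ℂ} {v : Fin n → ℂ} {c : ℂ}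
    (hv : T *ᵥ v = c • v) (k : ℕ) : (T ^ k) *ᵥ v = (c ^ k) • v := by
  induction k with
  | zero => simp
  | succ k ih => rw [pow_succ, ← Matrix.mulVec_mulVec, hv, Matrix.mulVec_smul, ih, smul_smul,
      pow_succ']

/-- If `U` is `H`-unitary, commutes with `X` and its adjoint, `X` is indecomposable and `u` is an
eigenvalue of `U`, then `(U - u)(conj u U - 1)` is nilpotent. -/
lemma quad_nilpotent (hd : H.det ≠ 0) {X U : Matrix (Fin n) (Fin n) ℂ}
    (hU : adj H U * U = 1) (hUX : U * X = X * U) (hUY : U * adj H X = adj H X * U)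
    (hind : ¬ IsDecomposable H X) {u : ℂ} {v : Fin n → ℂ} (hv0 : v ≠ 0)
    (hv : U *ᵥ v = u • v) : ∃ N : ℕ, quad u U ^ N = 0 := by
  set T := quad u U with hT
  have hU' : U * adj H U = 1 := mul_eq_one_comm.1 hU
  have hadjT : adj H T = adj H U * adj H U * T := by
    rw [hT]
    unfold quad
    rw [adj_mul hd, adj_sub, adj_sub, adj_smul, adj_smul, adj_one hd]
    have e1 : adj H U * (U - u • 1) = 1 - u • adj H U := by
      rw [Matrix.mul_sub, hU]; simp
    have e2 : adj H U * ((starRingEnd ℂ u) • U - 1) = (starRingEnd ℂ u) • 1 - adj H U := by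
      rw [Matrix.mul_sub, Matrix.mul_smul, hU]; simp
    have e3 : (1 - u • adj H U) * adj H U = adj H U * (1 - u • adj H U) := by
      rw [Matrix.mul_sub, Matrix.sub_mul]; simp
    calc _ = (1 - u • adj H U) * ((starRingEnd ℂ u) • 1 - adj H U) := by
          simp only [Complex.conj_conj]
          rw [← neg_sub (1 : Matrix (Fin n) (Fin n) ℂ) (u • adj H U),
            ← neg_sub ((starRingEnd ℂ u) • (1 : Matrix (Fin n) (Fin n) ℂ)) (adj H U),
            neg_mul_neg]
      _ = _ := by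
          rw [← e2, ← Matrix.mul_assoc, e3, ← e1]
          simp only [Matrix.mul_assoc]
  have hcomm : Commute (adj H U * adj H U) T := by
    have h1 : U * adj H U = adj H U * U := by rw [hU, hU']
    have h2 : T * adj H U = adj H U * T := quad_intertwine u h1
    show adj H U * adj H U * T = T * (adj H U * adj H U)
    rw [Matrix.mul_assoc, ← h2, ← Matrix.mul_assoc, ← h2, Matrix.mul_assoc]
  obtain ⟨N, hN, hN1⟩ := ((LinearMap.eventually_isCompl_ker_pow_range_pow
    (Matrix.toLin' T)).and (Filter.eventually_ge_atTop 1)).exists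
  refine ⟨N, ?_⟩
  have hpow : (Matrix.toLin' T) ^ N = Matrix.toLin' (T ^ N) := by
    rw [Matrix.toLin'_pow]
  rw [hpow] at hN
  set W := LinearMap.ker (Matrix.toLin' (T ^ N)) with hW
  have hmem : ∀ x, x ∈ W ↔ (T ^ N) *ᵥ x = 0 := by
    intro x; rw [hW, LinearMap.mem_ker, Matrix.toLin'_apply]
  have hinv : ∀ Z : Matrix (Fin n) (Fin n) ℂ, U * Z = Z * U → ∀ x ∈ W, Z *ᵥ x ∈ W := by
    intro Z hZ x hx
    rw [hmem] at hx ⊢
    rw [Matrix.mulVec_mulVec, pow_intertwine (quad_intertwine u hZ) N, ← Matrix.mulVec_mulVec,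
      hx, Matrix.mulVec_zero]
  have hWtop : W = ⊤ := by
    by_contra hne
    apply hind
    refine ⟨W, ?_, hne, ?_, hinv X hUX, hinv _ hUY⟩
    · intro hbot
      apply hv0
      have : v ∈ W := by
        rw [hmem, pow_mulVec_eigen (quad_mulVec u u hv) N]
        have : N ≠ 0 := by omega
        simp [this]
      rw [hbot] at this
      simpa using this
    · intro x hx hperp
      apply ip_nondeg hd
      intro y
      have hy : y ∈ W ⊔ LinearMap.range (Matrix.toLin' (T ^ N)) := by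
        rw [hN.sup_eq_top]; trivial
      obtain ⟨w, hw, r, ⟨z, rfl⟩, rfl⟩ := Submodule.mem_sup.1 hy
      rw [ip_add, hperp w hw, Matrix.toLin'_apply, ip_adj hd, adj_pow hd, hadjT,
        hcomm.mul_pow, ← Matrix.mulVec_mulVec, (hmem x).1 hx, Matrix.mulVec_zero, ip_zero_left,
        add_zero]
  have hz : Matrix.toLin' (T ^ N) = 0 := LinearMap.ker_eq_top.1 hWtop
  exact (LinearEquiv.map_eq_zero_iff Matrix.toLin').1 hz

lemma eigen_of_nilpotent {U : Matrix (Fin n) (Fin n) ℂ} {u μ : ℂ} {N : ℕ}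
    (hN : quad u U ^ N = 0) {v : Fin n → ℂ} (hv0 : v ≠ 0) (hv : U *ᵥ v = μ • v) :
    μ = u ∨ (starRingEnd ℂ u) * μ = 1 := by
  have h := pow_mulVec_eigen (quad_mulVec u μ hv) N
  rw [hN, Matrix.zero_mulVec] at h
  have h2 := (smul_eq_zero.1 h.symm).resolve_right hv0
  have h4 : (μ - u) * ((starRingEnd ℂ u) * μ - 1) = 0 := eq_zero_of_pow_eq_zero h2
  rcases mul_eq_zero.1 h4 with h5 | h5
  · left; exact sub_eq_zero.1 h5
  · right; exact sub_eq_zero.1 h5

lemma eigen_of_quad_det {V : Matrix (Fin n) (Fin n) ℂ} {u : ℂ} (hu : u ≠ 0)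
    (h : (quad u V).det = 0) :
    ∃ (s : ℂ) (w : Fin n → ℂ), w ≠ 0 ∧ V *ᵥ w = s • w ∧
      ∃ ρ : ℝ, 0 < ρ ∧ (starRingEnd ℂ u) * s = ρ := by
  unfold quad at h
  rw [Matrix.det_mul] at h
  have hc : (starRingEnd ℂ u) ≠ 0 := by simpa using hu
  rcases mul_eq_zero.1 h with h1 | h1
  · obtain ⟨w, hw0, hw⟩ := Matrix.exists_mulVec_eq_zero_iff.2 h1
    refine ⟨u, w, hw0, ?_, Complex.normSq u, Complex.normSq_pos.2 hu, ?_⟩
    · rw [Matrix.sub_mulVec, Matrix.smul_mulVec, Matrix.one_mulVec] at hw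
      exact sub_eq_zero.1 hw
    · rw [Complex.normSq_eq_conj_mul_self]
  · obtain ⟨w, hw0, hw⟩ := Matrix.exists_mulVec_eq_zero_iff.2 h1
    refine ⟨(starRingEnd ℂ u)⁻¹, w, hw0, ?_, 1, one_pos, ?_⟩
    · rw [Matrix.sub_mulVec, Matrix.smul_mulVec, Matrix.one_mulVec] at hw
      have h2 := sub_eq_zero.1 hw
      calc V *ᵥ w = (starRingEnd ℂ u)⁻¹ • ((starRingEnd ℂ u) • (V *ᵥ w)) := by
            rw [smul_smul, inv_mul_cancel₀ hc, one_smul]
        _ = _ := by rw [h2]
    · rw [mul_inv_cancel₀ hc]; simp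

lemma sylvester {U V D : Matrix (Fin n) (Fin n) ℂ} {u : ℂ} {N : ℕ} (hN : quad u U ^ N = 0)
    (h : U * D = D * V) (hdet : (quad u V).det ≠ 0) : D = 0 := by
  have h1 := pow_intertwine (quad_intertwine u h) N
  rw [hN, Matrix.zero_mul] at h1
  have h2 : IsUnit (quad u V ^ N).det := by
    rw [Matrix.det_pow]
    exact Ne.isUnit (pow_ne_zero N hdet)
  calc D = D * (quad u V ^ N * (quad u V ^ N)⁻¹) := by
        rw [Matrix.mul_nonsing_inv _ h2, Matrix.mul_one]
    _ = 0 := by rw [← Matrix.mul_assoc, ← h1, Matrix.zero_mul]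

lemma polar_facts (hd : H.det ≠ 0) {X U A : Matrix (Fin n) (Fin n) ℂ}
    (h : IsCommPolar H X U A) :
    U * X = X * U ∧ U * adj H X = adj H X * U ∧ U * adj H X = A ∧ U * U * adj H X = X := by
  obtain ⟨hU, hA, hX, hc⟩ := h
  have hU' : U * adj H U = 1 := mul_eq_one_comm.1 hU
  have hY : adj H X = A * adj H U := by rw [hX, adj_mul hd, hA]
  have h3 : U * adj H X = A := by
    rw [hY, ← Matrix.mul_assoc, hc, Matrix.mul_assoc, hU', Matrix.mul_one]
  refine ⟨?_, ?_, h3, ?_⟩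
  · rw [hX, Matrix.mul_assoc U A U, ← hc]
  · rw [h3, hY, Matrix.mul_assoc, hU, Matrix.mul_one]
  · rw [Matrix.mul_assoc, h3, hX]

lemma unique_up_to_sign (hd : H.det ≠ 0) {X U A U' A' : Matrix (Fin n) (Fin n) ℂ} (hX : X ≠ 0)
    (hind : ¬ IsDecomposable H X) (h : IsCommPolar H X U A) (h' : IsCommPolar H X U' A') :
    A' = A ∨ A' = -A := by
  obtain ⟨a1, a2, a3, a4⟩ := polar_facts hd h
  obtain ⟨b1, b2, b3, b4⟩ := polar_facts hd h'
  have hn : Nonempty (Fin n) := by
    by_contra hne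
    rw [not_nonempty_iff] at hne
    exact hX (Subsingleton.elim _ _)
  obtain ⟨u, hu⟩ := Module.End.exists_eigenvalue (Matrix.toLin' U)
  obtain ⟨v, hv⟩ := hu.exists_hasEigenvector
  have hv0 : v ≠ 0 := hv.2
  have hv1 : U *ᵥ v = u • v := by
    have := hv.apply_eq_smul
    rwa [Matrix.toLin'_apply] at this
  have hu0 : u ≠ 0 := by
    rintro rfl
    apply hv0
    calc v = (adj H U * U) *ᵥ v := by rw [h.1, Matrix.one_mulVec]
      _ = 0 := by rw [← Matrix.mulVec_mulVec, hv1, zero_smul, Matrix.mulVec_zero]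
  obtain ⟨N, hN⟩ := quad_nilpotent hd h.1 a1 a2 hind hv0 hv1
  by_cases hd1 : (quad u (-U')).det = 0
  · by_cases hd2 : (quad u U').det = 0
    · exfalso
      obtain ⟨t, w, hw0, hw, ρ, hρ, hρt⟩ := eigen_of_quad_det hu0 hd1
      obtain ⟨s, z, hz0, hz, σ, hσ, hσs⟩ := eigen_of_quad_det hu0 hd2
      have hw' : U' *ᵥ w = (-t) • w := by
        rw [Matrix.neg_mulVec] at hw
        rw [neg_smul, ← hw, neg_neg]
      obtain ⟨M, hM⟩ := quad_nilpotent hd h'.1 b1 b2 hind hz0 hz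
      rcases eigen_of_nilpotent hM hw0 hw' with e | e
      · have : (ρ : ℂ) + σ = 0 := by rw [← hρt, ← hσs, ← e]; ring
        have h2 : ρ + σ = 0 := by exact_mod_cast this
        linarith
      · have hσ' : u * (starRingEnd ℂ s) = σ := by
          have := congrArg (starRingEnd ℂ) hσs
          simpa using this
        have : (σ : ℂ) * ρ + Complex.normSq u = 0 := by
          rw [← hρt, ← hσ', Complex.normSq_eq_conj_mul_self]
          linear_combination (-(u * (starRingEnd ℂ u))) * e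
        have h2 : σ * ρ + Complex.normSq u = 0 := by exact_mod_cast this
        have h3 := Complex.normSq_nonneg u
        have h4 := mul_pos hσ hρ
        linarith
    · right
      have hD : U * ((U + U') * adj H X) = ((U + U') * adj H X) * U' := by
        rw [Matrix.mul_assoc (U + U'), ← b2, ← Matrix.mul_assoc, ← Matrix.mul_assoc,
          Matrix.mul_add, Matrix.add_mul U U' U', Matrix.add_mul, Matrix.add_mul, a4, b4, add_comm]
      have := sylvester hN hD hd2
      rw [Matrix.add_mul, a3, b3] at this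
      exact eq_neg_of_add_eq_zero_right this
  · left
    have hD : U * ((U - U') * adj H X) = ((U - U') * adj H X) * (-U') := by
      rw [Matrix.mul_neg, Matrix.mul_assoc (U - U'), ← b2, ← Matrix.mul_assoc, ← Matrix.mul_assoc,
        Matrix.mul_sub, Matrix.sub_mul U U' U', Matrix.sub_mul, Matrix.sub_mul, a4, b4, neg_sub]
    have := sylvester hN hD hd1
    rw [Matrix.sub_mul, a3, b3] at this
    exact (sub_eq_zero.1 this).symm

lemma neg_polar {X U A : Matrix (Fin n) (Fin n) ℂ} (h : IsCommPolar H X U A) :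
    IsCommPolar H X (-U) (-A) := by
  obtain ⟨hU, hA, hX, hc⟩ := h
  refine ⟨?_, ?_, ?_, ?_⟩
  · rw [adj_neg, neg_mul_neg, hU]
  · rw [adj_neg, hA]
  · rw [neg_mul_neg, hX]
  · rw [neg_mul_neg, neg_mul_neg, hc]

end Aux

/-- A nonzero `H`-indecomposable matrix having an `H`-polar decomposition with commuting factors
satisfies `CPD(X, H) = 2`. -/
theorem result (n : ℕ) (H X : Matrix (Fin n) (Fin n) ℂ) (_hH : H.IsHermitian) (hd : H.det ≠ 0)
    (hX : X ≠ 0) (hind : ¬ IsDecomposable H X) (hex : ∃ U A, IsCommPolar H X U A) :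
    CPD H X = 2 := by
  obtain ⟨U, A, h⟩ := hex
  have hA : A ≠ -A := by
    intro hA
    apply hX
    have h2 : (2 : ℂ) • A = 0 := by
      rw [two_smul]
      exact eq_neg_iff_add_eq_zero.1 hA
    have h3 : A = 0 := (smul_eq_zero.1 h2).resolve_left two_ne_zero
    rw [h.2.2.1, h3, Matrix.mul_zero]
  unfold CPD
  rw [Cardinal.mk_eq_two_iff]
  refine ⟨⟨A, U, h⟩, ⟨-A, -U, neg_polar h⟩, ?_, ?_⟩
  · intro e
    exact hA (congrArg Subtype.val e)
  · rw [Set.eq_univ_iff_forall]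
    rintro ⟨A', U', h'⟩
    rcases unique_up_to_sign hd hX hind h h' with e | e
    · left; exact Subtype.ext e
    · right; exact Subtype.ext e

end Pool.Agent.Results.MP_d7084b_al.CommutingPolarTwo
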